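import Mathlib.Algebra.Polynomial.Derivative
import Mathlib.Algebra.Polynomial.AlgebraMap
import Mathlib.Data.Complex.Basic
import Mathlib.Tactic

/-!
The monomial test for the rescaled operator of a Hermite diagonal operator fails, already for the
positive, strictly increasing eigenvalue sequence `γ n = n ^ 2 + 1`.
-/

namespace Pool.Agent.Results.MP_fcf092_an.MonomialTestFails

open Polynomial Finset

/-- A real polynomial is hyperbolic if it is zero or all its complex zeros are real. -/
def Hyperbolic (p : ℝ[X]) : Prop := p = 0 ∨ ∀ z : ℂ, aeval z p = 0 → z.im = 0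

/-- The Hermite polynomials in the physicists' normalisation: `H 0 = 1` and
`H (n + 1) = 2 x H n - (H n)'`. -/
noncomputable def H : ℕ → ℝ[X]
  | 0 => 1
  | n + 1 => 2 * X * H n - derivative (H n)

/-- The linear operator `T` is represented as `∑ k, Q k * D ^ k`. -/
def IsRep (T : ℝ[X] →ₗ[ℝ] ℝ[X]) (Q : ℕ → ℝ[X]) : Prop :=
  ∀ p : ℝ[X], T p = ∑ k ∈ range (p.natDegree + 1), Q k * derivative^[k] p

theorem hermite_ode (n : ℕ) :
    derivative (derivative (H n)) = 2 * X * derivative (H n) - C (2 * (n : ℝ)) * H n ∧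
      derivative (H (n + 1)) = C (2 * ((n : ℝ) + 1)) * H n := by
  induction n with
  | zero => simp [H, map_ofNat C 2]
  | succ n ih =>
    obtain ⟨h1, h2⟩ := ih
    have h3 : derivative (derivative (H (n + 1))) =
        2 * X * derivative (H (n + 1)) - C (2 * ((n + 1 : ℕ) : ℝ)) * H (n + 1) := by
      rw [h2]
      have : H (n + 1) = 2 * X * H n - derivative (H n) := rfl
      rw [this]
      simp only [derivative_mul, derivative_C, zero_mul, zero_add]
      push_cast
      ring
    refine ⟨h3, ?_⟩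
    have : H (n + 1 + 1) = 2 * X * H (n + 1) - derivative (H (n + 1)) := rfl
    rw [this, derivative_sub, h3]
    simp only [derivative_mul, derivative_X, derivative_ofNat, zero_mul, zero_add, mul_one]
    simp only [map_mul, map_add, map_one, map_natCast]
    push_cast
    have h22 : (C (2 : ℝ) : ℝ[X]) = 2 := map_ofNat C 2
    rw [h22]
    ring

/-- The first order part `x D - D ^ 2 / 2`, whose eigenvalue on `H n` is `n`. -/
noncomputable def L : ℝ[X] →ₗ[ℝ] ℝ[X] :=
  (LinearMap.mulLeft ℝ X) ∘ₗ derivative - (1 / 2 : ℝ) • (derivative ∘ₗ derivative)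

theorem L_apply (p : ℝ[X]) : L p = X * derivative p - C (1 / 2) * derivative (derivative p) := by
  simp [L, smul_eq_C_mul]

theorem L_H (n : ℕ) : L (H n) = (n : ℝ) • H n := by
  rw [L_apply, (hermite_ode n).1, smul_eq_C_mul]
  have : (C (1 / 2 : ℝ)) * (2 * X * derivative (H n) - C (2 * (n : ℝ)) * H n) =
      (C (1 / 2 : ℝ) * C 2) * (X * derivative (H n)) - (C (1 / 2 : ℝ) * C 2) * (C (n : ℝ) * H n) := by
    rw [C_mul]
    have h22 : (C (2 : ℝ) : ℝ[X]) = 2 := map_ofNat C 2
    rw [h22]
    ring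
  rw [this, ← C_mul]
  norm_num

/-- The Hermite diagonal operator with eigenvalues `n ^ 2 + 1`. -/
noncomputable def T : ℝ[X] →ₗ[ℝ] ℝ[X] := LinearMap.id + L ∘ₗ L

/-- The coefficients of `T`. -/
noncomputable def Q : ℕ → ℝ[X]
  | 0 => 1
  | 1 => X
  | 2 => X ^ 2 - 1
  | 3 => -X
  | 4 => C (1 / 4)
  | _ + 5 => 0

theorem sum_five (R : ℕ → ℝ[X]) (hR : ∀ k, R (k + 5) = 0) (p : ℝ[X]) :
    ∑ k ∈ range (p.natDegree + 1), R k * derivative^[k] p =
      ∑ k ∈ range 5, R k * derivative^[k] p := by
  have h1 : ∑ k ∈ range (p.natDegree + 1), R k * derivative^[k] p =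
      ∑ k ∈ range (max (p.natDegree + 1) 5), R k * derivative^[k] p := by
    apply sum_subset
    · exact range_subset_range.2 (le_max_left _ _)
    · intro k _ hk
      rw [mem_range, not_lt] at hk
      rw [iterate_derivative_eq_zero (by omega), mul_zero]
  have h2 : ∑ k ∈ range 5, R k * derivative^[k] p =
      ∑ k ∈ range (max (p.natDegree + 1) 5), R k * derivative^[k] p := by
    apply sum_subset
    · exact range_subset_range.2 (le_max_right _ _)
    · intro k _ hk
      rw [mem_range, not_lt] at hk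
      obtain ⟨j, rfl⟩ := Nat.exists_eq_add_of_le hk
      rw [add_comm 5 j, hR, zero_mul]
  rw [h1, h2]

theorem T_rep : IsRep T Q := by
  intro p
  rw [sum_five Q (fun k => rfl)]
  simp only [T, LinearMap.add_apply, LinearMap.id_apply, LinearMap.comp_apply, L_apply,
    sum_range_succ, sum_range_zero, Q, Function.iterate_succ, Function.iterate_zero,
    Function.comp_apply, id_eq, derivative_sub, derivative_mul, derivative_X, derivative_C]
  have e1 : (C (1 / 4 : ℝ) : ℝ[X]) = C (1 / 2) * C (1 / 2) := by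
    rw [← C_mul]; norm_num
  have e2 : (C (1 / 2 : ℝ) : ℝ[X]) * 2 = 1 := by
    have : (2 : ℝ[X]) = C 2 := (map_ofNat C 2).symm
    rw [this, ← C_mul]; norm_num
  rw [e1]
  simp only [derivative_add, derivative_mul, derivative_X, derivative_C, derivative_one,
    derivative_zero]
  linear_combination (-derivative (derivative p) - X * derivative (derivative (derivative p))) * e2

/-- The rescaled operator. -/
noncomputable def W : ℝ[X] →ₗ[ℝ] ℝ[X] :=
  ∑ k ∈ range 5, (LinearMap.mulLeft ℝ (C ((1 / 2) ^ k) * Q k)) ∘ₗ (derivative ^ k)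

theorem W_apply (p : ℝ[X]) :
    W p = ∑ k ∈ range 5, C ((1 / 2) ^ k) * Q k * derivative^[k] p := by
  simp [W, Module.End.pow_apply, mul_assoc]

theorem W_rep : IsRep W (fun k => C ((1 / 2) ^ k) * Q k) := by
  intro p
  rw [sum_five (fun k => C ((1 / 2) ^ k) * Q k) (fun k => by simp [Q]), W_apply]

theorem aeval_W (p : ℝ[X]) (z : ℂ) :
    aeval z (W p) = aeval z p + z / 2 * aeval z (derivative p) +
      (z ^ 2 - 1) / 4 * aeval z (derivative (derivative p)) -
      z / 8 * aeval z (derivative (derivative (derivative p))) +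
      1 / 64 * aeval z (derivative (derivative (derivative (derivative p)))) := by
  rw [W_apply]
  simp [sum_range_succ, Q]
  ring

/-- Zeros of `A z ^ 4 - B z ^ 2 + C` are real when `A > 0`, `B, C ≥ 0` and `B ^ 2 ≥ 4 A C`. -/
theorem biquadratic (A B D : ℝ) (hA : 0 < A) (hB : 0 ≤ B) (hD : 0 ≤ D) (hdisc : 4 * A * D ≤ B ^ 2)
    (z : ℂ) (hz : (A : ℂ) * z ^ 4 - B * z ^ 2 + D = 0) : z.im = 0 := by
  set u : ℂ := z ^ 2 with hu
  have h1 : (A : ℂ) * u ^ 2 - B * u + D = 0 := by
    rw [hu]
    linear_combination hz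
  have h2 : (2 * (A : ℂ) * u - B) ^ 2 = ((B ^ 2 - 4 * A * D : ℝ) : ℂ) := by
    push_cast
    linear_combination 4 * (A : ℂ) * h1
  -- the square is a nonnegative real number, so its root is real
  have h3 : (2 * (A : ℂ) * u - B).im = 0 := by
    set v : ℂ := 2 * (A : ℂ) * u - B
    have hre := congrArg Complex.re h2
    have him := congrArg Complex.im h2
    rw [Complex.ofReal_re, sq, Complex.mul_re] at hre
    rw [Complex.ofReal_im, sq, Complex.mul_im] at him
    by_contra hne
    have hvre : v.re = 0 := by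
      have : v.re * v.im = 0 := by linarith
      rcases mul_eq_zero.1 this with h | h
      · exact h
      · exact absurd h hne
    rw [hvre] at hre
    have : 0 < v.im * v.im := mul_self_pos.2 hne
    nlinarith
  have h4 : u.im = 0 := by
    simp only [Complex.sub_im, Complex.mul_im, Complex.mul_re, Complex.re_ofNat, Complex.im_ofNat,
      Complex.ofReal_re, Complex.ofReal_im, mul_zero, zero_mul, sub_zero, add_zero] at h3
    have : A * u.im = 0 := by linarith
    rcases mul_eq_zero.1 this with h | h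
    · exact absurd h hA.ne'
    · exact h
  have h5 : A * u.re ^ 2 - B * u.re + D = 0 := by
    have hu' : u = (u.re : ℂ) := by
      apply Complex.ext <;> simp [h4]
    rw [hu'] at h1
    exact_mod_cast h1
  have h6 : 0 ≤ u.re := by
    by_contra hneg
    push Not at hneg
    nlinarith [mul_pos hA (mul_pos_of_neg_of_neg hneg hneg),
      mul_nonneg hB (neg_nonneg.2 hneg.le)]
  rw [hu, sq] at h4 h6
  rw [Complex.mul_im] at h4
  rw [Complex.mul_re] at h6
  by_contra hne
  have hre : z.re = 0 := by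
    have : z.re * z.im = 0 := by linarith
    rcases mul_eq_zero.1 this with h | h
    · exact h
    · exact absurd h hne
  rw [hre] at h6
  have : 0 < z.im * z.im := mul_self_pos.2 hne
  linarith

theorem aeval_W_pow (n : ℕ) (z : ℂ) :
    z ^ 4 * aeval z (W (X ^ n)) = z ^ n * ((((n : ℝ) ^ 2 + n + 4) / 4 : ℝ) * z ^ 4 -
      (((n : ℝ) ^ 2 * (n - 1)) / 8 : ℝ) * z ^ 2 +
      (((n : ℝ) * (n - 1) * (n - 2) * (n - 3)) / 64 : ℝ)) := by
  rw [aeval_W]
  match n with
  | 0 => simp
  | 1 => simp; ring
  | 2 => simp; ring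
  | 3 => simp; ring
  | k + 4 =>
    simp
    ring

theorem W_pow_hyperbolic (n : ℕ) : Hyperbolic (W (X ^ n)) := by
  right
  intro z hz
  by_cases hz0 : z = 0
  · simp [hz0]
  have h := aeval_W_pow n z
  rw [hz, mul_zero] at h
  have h' := (mul_eq_zero.1 h.symm).resolve_left (pow_ne_zero n hz0)
  rcases Nat.lt_or_ge n 2 with hn | hn
  · exfalso
    interval_cases n
    · simp at h'
      exact hz0 h'
    · simp at h'
      norm_num at h'
      exact hz0 h'
  · have hn' : (2 : ℝ) ≤ n := by exact_mod_cast hn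
    have hD : 0 ≤ ((n : ℝ) * (n - 1) * (n - 2) * (n - 3)) / 64 := by
      rcases Nat.lt_or_ge n 3 with h3 | h3
      · have : n = 2 := by omega
        subst this
        norm_num
      · have h3' : (3 : ℝ) ≤ n := by exact_mod_cast h3
        have a1 : 0 ≤ (n : ℝ) - 1 := by linarith
        have a2 : 0 ≤ (n : ℝ) - 2 := by linarith
        have a3 : 0 ≤ (n : ℝ) - 3 := by linarith
        positivity
    refine biquadratic _ _ _ (by positivity) ?_ hD ?_ z h'
    · have a1 : 0 ≤ (n : ℝ) - 1 := by linarith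
      positivity
    · obtain ⟨t, ht⟩ : ∃ t : ℝ, (n : ℝ) = t + 2 := ⟨n - 2, by ring⟩
      have ht0 : 0 ≤ t := by linarith
      rw [ht]
      have key : 0 ≤ (t + 2) * (t + 1) * (3 * t ^ 3 + 13 * t ^ 2 + 30 * t + 8) := by positivity
      nlinarith [key]

theorem W_not_preserver : ¬ ∀ p : ℝ[X], Hyperbolic p → Hyperbolic (W p) := by
  intro h
  have hp : Hyperbolic ((X + 3) ^ 2 : ℝ[X]) := by
    right
    intro z hz
    simp [map_ofNat (aeval z : ℝ[X] →ₐ[ℝ] ℂ) 3] at hz
    have : z = -3 := by linear_combination hz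
    rw [this]
    simp
  have := h _ hp
  have hval : ∀ z : ℂ, aeval z (W ((X + 3) ^ 2)) = 5 / 2 * z ^ 2 + 9 * z + 17 / 2 := by
    intro z
    have e : ((X + 3) ^ 2 : ℝ[X]) = X ^ 2 + 6 * X + 9 := by ring
    rw [e, aeval_W]
    simp [map_ofNat (aeval z : ℝ[X] →ₐ[ℝ] ℂ)]
    ring
  rcases this with h0 | h0
  · have h1 := hval 0
    rw [h0] at h1
    norm_num at h1
  · have h1 := h0 ⟨-9 / 5, 2 / 5⟩ (by
      rw [hval]
      apply Complex.ext
      · simp [sq]; norm_num
      · simp [sq]; norm_num)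
    norm_num at h1

/-- The monomial test fails for the rescaled operator of a Hermite diagonal operator with
positive and strictly increasing eigenvalues. -/
theorem result :
    ∃ (T W : ℝ[X] →ₗ[ℝ] ℝ[X]) (Q : ℕ → ℝ[X]) (γ : ℕ → ℝ),
      (∀ n, 0 < γ n) ∧ StrictMono γ ∧ (∀ n, T (H n) = γ n • H n) ∧
      IsRep T Q ∧ IsRep W (fun k => C ((1 / 2) ^ k) * Q k) ∧
      (∀ n : ℕ, Hyperbolic (W (X ^ n))) ∧
      ¬ ∀ p : ℝ[X], Hyperbolic p → Hyperbolic (W p) := by
  refine ⟨T, W, Q, fun n => (n : ℝ) ^ 2 + 1, fun n => by positivity, ?_, ?_, T_rep, W_rep,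
    W_pow_hyperbolic, W_not_preserver⟩
  · intro m n hmn
    have : (m : ℝ) < n := by exact_mod_cast hmn
    have hm : (0 : ℝ) ≤ m := Nat.cast_nonneg m
    simp only
    nlinarith
  · intro n
    simp only [T, LinearMap.add_apply, LinearMap.id_apply, LinearMap.comp_apply, L_H, map_smul]
    rw [smul_smul, add_smul, one_smul, sq, add_comm]

end Pool.Agent.Results.MP_fcf092_an.MonomialTestFails
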